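import Pool.Agent.W2helper93.KC.Stm

/-!
# Project KC: the Fourier coefficients of the periodograms
-/

set_option autoImplicit false

open MeasureTheory Filter Topology
open scoped ENNReal

namespace Pool.Agent.W2helper89.KC

open Pool.Agent.W2helper93.KC

noncomputable section

/-- the numbers of `U` in `[-T, T]` -/
def ST (U : Set ℤ) (T : ℝ) : Set ℤ := {b | b ∈ U ∧ |(b : ℝ)| ≤ T}

lemma ST_fin (U : Set ℤ) (T : ℝ) : (ST U T).Finite := by
  refine (Set.finite_Icc (-⌈T⌉) ⌈T⌉).subset ?_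
  rintro b ⟨-, hb⟩
  rw [abs_le] at hb
  have h1 : (T : ℝ) ≤ ⌈T⌉ := Int.le_ceil T
  constructor
  · have : (-(⌈T⌉ : ℝ)) ≤ b := by linarith
    exact_mod_cast this
  · have : (b : ℝ) ≤ (⌈T⌉ : ℝ) := by linarith
    exact_mod_cast this

/-- the exponential sum -/
def ES (U : Set ℤ) (T : ℝ) (z : AddCircle (1 : ℝ)) : ℂ :=
  ∑ b ∈ (ST_fin U T).toFinset, fourier b z

lemma ES_cont (U : Set ℤ) (T : ℝ) : Continuous (ES U T) := by
  unfold ES
  fun_prop

lemma integral_fourier (k : ℤ) :
    ∫ z : AddCircle (1 : ℝ), (fourier k z : ℂ) ∂AddCircle.haarAddCircle = if k = 0 then 1 else 0 := by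
  split_ifs with h
  · subst h
    simp
  · exact integral_eq_zero_of_add_right_eq_neg (μ := AddCircle.haarAddCircle)
      (fourier_add_half_inv_index h (by norm_num))

lemma normSq_ES (U : Set ℤ) (T : ℝ) (k : ℤ) (z : AddCircle (1 : ℝ)) :
    ((‖ES U T z‖ ^ 2 : ℝ) : ℂ) * fourier k z =
      ∑ b ∈ (ST_fin U T).toFinset, ∑ c ∈ (ST_fin U T).toFinset, fourier (b - c + k) z := by
  have h1 : ((‖ES U T z‖ ^ 2 : ℝ) : ℂ) = ES U T z * (starRingEnd ℂ) (ES U T z) := by
    rw [Complex.mul_conj, Complex.normSq_eq_norm_sq]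
  rw [h1]
  unfold ES
  rw [map_sum, Finset.sum_mul_sum, Finset.sum_mul]
  refine Finset.sum_congr rfl fun b _ => ?_
  rw [Finset.sum_mul]
  refine Finset.sum_congr rfl fun c _ => ?_
  rw [← fourier_neg, ← fourier_add, ← fourier_add, sub_eq_add_neg]

lemma count_eq (U : Set ℤ) (T : ℝ) (k : ℤ) :
    (∑ b ∈ (ST_fin U T).toFinset, ∑ c ∈ (ST_fin U T).toFinset,
      if b - c + k = 0 then (1 : ℂ) else 0) = ((prz U k T).ncard : ℂ) := by
  classical
  have h1 : ∀ b ∈ (ST_fin U T).toFinset, (∑ c ∈ (ST_fin U T).toFinset,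
      if b - c + k = 0 then (1 : ℂ) else 0) = if b + k ∈ ST U T then 1 else 0 := by
    intro b _
    have h2 : ∀ c : ℤ, (b - c + k = 0) ↔ (b + k = c) := by intro c; omega
    simp only [h2]
    rw [Finset.sum_ite_eq]
    simp only [Set.Finite.mem_toFinset]
  rw [Finset.sum_congr rfl h1, ← Finset.sum_filter, Finset.sum_const, nsmul_eq_mul, mul_one]
  congr 1
  rw [← Set.ncard_coe_finset]
  congr 1
  ext b
  simp only [Finset.coe_filter, Set.Finite.mem_toFinset, ST, prz, Set.mem_setOf_eq]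
  tauto

theorem coef (U : Set ℤ) (T : ℝ) (hT : 0 < T) : ∃ r : Measure (AddCircle (1 : ℝ)),
    IsFiniteMeasure r ∧ ∀ k : ℤ, ∫ z, (fourier k z : ℂ) ∂r =
      ((((prz U k T).ncard : ℝ) / (2 * T) : ℝ) : ℂ) := by
  have hc : Continuous fun z : AddCircle (1 : ℝ) => ‖ES U T z‖ ^ 2 / (2 * T) :=
    ((ES_cont U T).norm.pow 2).div_const _
  have hi : Integrable (fun z : AddCircle (1 : ℝ) => ‖ES U T z‖ ^ 2 / (2 * T))
      AddCircle.haarAddCircle := hc.integrable_of_hasCompactSupport (HasCompactSupport.of_compactSpace _)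
  refine ⟨AddCircle.haarAddCircle.withDensity fun z => ENNReal.ofReal (‖ES U T z‖ ^ 2 / (2 * T)),
    isFiniteMeasure_withDensity_ofReal hi.hasFiniteIntegral, fun k => ?_⟩
  have hm : Measurable fun z : AddCircle (1 : ℝ) => Real.toNNReal (‖ES U T z‖ ^ 2 / (2 * T)) :=
    hc.measurable.real_toNNReal
  have h1 := integral_withDensity_eq_integral_smul (μ := AddCircle.haarAddCircle) hm
    (fun z => (fourier k z : ℂ))
  refine h1.trans ?_
  have h2 : ∀ z : AddCircle (1 : ℝ), (Real.toNNReal (‖ES U T z‖ ^ 2 / (2 * T))) • (fourier k z : ℂ) =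
      ((2 * T : ℝ) : ℂ)⁻¹ * ∑ b ∈ (ST_fin U T).toFinset, ∑ c ∈ (ST_fin U T).toFinset,
        fourier (b - c + k) z := by
    intro z
    rw [← normSq_ES, NNReal.smul_def, Real.coe_toNNReal _ (by positivity), Complex.real_smul]
    push_cast
    ring
  simp only [h2]
  rw [integral_const_mul, integral_finset_sum]
  · have h3 : ∀ b ∈ (ST_fin U T).toFinset, ∫ z : AddCircle (1 : ℝ),
        ∑ c ∈ (ST_fin U T).toFinset, (fourier (b - c + k) z : ℂ) ∂AddCircle.haarAddCircle =
        ∑ c ∈ (ST_fin U T).toFinset, if b - c + k = 0 then (1 : ℂ) else 0 := by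
      intro b _
      rw [integral_finset_sum]
      · exact Finset.sum_congr rfl fun c _ => integral_fourier _
      · intro c _
        exact (map_continuous (fourier (b - c + k))).integrable_of_hasCompactSupport
          (HasCompactSupport.of_compactSpace _)
    rw [Finset.sum_congr rfl h3, count_eq]
    push_cast
    rw [div_eq_inv_mul]
  · intro b _
    refine integrable_finset_sum _ fun c _ => ?_
    exact (map_continuous (fourier (b - c + k))).integrable_of_hasCompactSupport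
      (HasCompactSupport.of_compactSpace _)

end

end Pool.Agent.W2helper89.KC
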