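import Pool.Agent.W2helper89.KC.Coef

/-!
# Project KC, piece HERG: Herglotz
-/

set_option autoImplicit false

open MeasureTheory Filter Topology
open scoped ENNReal NNReal

namespace Pool.Agent.W2helper89.KC

open Pool.Agent.W2helper93.KC

theorem p_herg : P_HERG := by
  intro U ν hF
  choose r hr1 hr2 using fun n : ℕ => coef U ((n : ℝ) + 1) (by positivity)
  -- the coefficients converge
  have hlim : ∀ k : ℤ, Tendsto (fun n : ℕ => ∫ z, (fourier k z : ℂ) ∂(r n)) atTop (𝓝 (ν k : ℂ)) := by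
    intro k
    simp only [hr2]
    have h1 : Tendsto (fun n : ℕ => ((n : ℝ) + 1)) atTop atTop :=
      tendsto_atTop_add_const_right _ _ tendsto_natCast_atTop_atTop
    exact (Complex.continuous_ofReal.tendsto _).comp ((hF k).comp h1)
  -- the masses
  have hmass : ∀ n, ∫ z, (fourier 0 z : ℂ) ∂(r n) = (((r n).real Set.univ : ℝ) : ℂ) := by
    intro n
    have := hr1 n
    simp
  have hm : Tendsto (fun n : ℕ => (r n).real Set.univ) atTop (𝓝 (ν 0)) := by
    have h1 := hlim 0
    simp only [hmass] at h1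
    exact_mod_cast (Complex.continuous_re.tendsto _).comp h1
  obtain ⟨C, hC⟩ := hm.bddAbove_range
  have hC' : ∀ n, (r n).real Set.univ ≤ C := fun n => hC ⟨n, rfl⟩
  let μ : ℕ → FiniteMeasure (AddCircle (1 : ℝ)) := fun n => ⟨r n, hr1 n⟩
  have hμ : ∀ n, μ n ∈ {μ : FiniteMeasure (AddCircle (1 : ℝ)) | μ.mass ≤ C.toNNReal} := by
    intro n
    show (μ n).mass ≤ C.toNNReal
    apply NNReal.le_toNNReal_of_coe_le
    exact hC' n
  have hcomp := isCompact_setOfPred_finiteMeasure_le_of_compactSpace (AddCircle (1 : ℝ)) C.toNNReal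
  obtain ⟨ρ, -, hρ⟩ := isCompact_iff_ultrafilter_le_nhds.1 hcomp
    ((hyperfilter ℕ).map μ) (by
      rw [Filter.le_principal_iff]
      exact Filter.mem_map.2 (Filter.univ_mem' hμ))
  have hρ' : Tendsto μ (hyperfilter ℕ : Filter ℕ) (𝓝 ρ) := hρ
  refine ⟨(ρ : Measure (AddCircle (1 : ℝ))), inferInstance, fun k => ?_⟩
  have h1 := (FiniteMeasure.tendsto_iff_forall_integral_rclike_tendsto ℂ).1 hρ'
    (BoundedContinuousFunction.mkOfCompact (fourier k))
  have h2 : Tendsto (fun n : ℕ => ∫ z, (fourier k z : ℂ) ∂(r n)) (hyperfilter ℕ : Filter ℕ)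
      (𝓝 (ν k : ℂ)) := (hlim k).mono_left (Nat.hyperfilter_le_atTop)
  exact tendsto_nhds_unique h1 h2

end Pool.Agent.W2helper89.KC
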